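import Mathlib

/-!
# The number of labels
-/

set_option autoImplicit false

namespace Pool.Agent.Hhelper3.AM

lemma sq_le_four_pow (l : ℕ) : (l + 1) ^ 2 ≤ 4 * 2 ^ l := by
  induction l with
  | zero => norm_num
  | succ l ih =>
    rcases Nat.lt_or_ge l 3 with h | h
    · interval_cases l <;> norm_num
    · rw [pow_succ 2 l]
      nlinarith

lemma pow_log_le (n K : ℕ) (hn : 1 ≤ n) (hK : 2 ^ K ≤ n) : n ^ (K + 1) ≤ 2 ^ (4 * n) := by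
  have h0 : n ≠ 0 := by omega
  have h1 : n < 2 ^ (Nat.log 2 n + 1) := Nat.lt_pow_succ_log_self (by norm_num) n
  have h2 : 2 ^ Nat.log 2 n ≤ n := Nat.pow_log_le_self 2 h0
  have h3 : K ≤ Nat.log 2 n := Nat.le_log_of_pow_le (by norm_num) hK
  calc n ^ (K + 1) ≤ n ^ (Nat.log 2 n + 1) := Nat.pow_le_pow_right hn (by omega)
    _ ≤ (2 ^ (Nat.log 2 n + 1)) ^ (Nat.log 2 n + 1) := Nat.pow_le_pow_left h1.le _
    _ = 2 ^ ((Nat.log 2 n + 1) ^ 2) := by rw [← pow_mul, sq]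
    _ ≤ 2 ^ (4 * n) := by
        refine Nat.pow_le_pow_right (by norm_num) ?_
        exact (sq_le_four_pow _).trans (Nat.mul_le_mul_left 4 h2)

theorem label_num (d r kap1 c1 : ℕ) : ∃ kappa : ℕ, ∀ m p q K T : ℕ, 3 ≤ m → 1 ≤ q → p ≤ 4 * q →
    K = Nat.log 2 m → T ≤ c1 * (m + p) →
    2 ^ p * (2 * kap1) ^ T * d ^ (p + 1) *
      ((T + 1) * ((4 * r * 2 ^ K) ^ 2 * T + 1)) ^ (K + 1) ≤ kappa ^ (m + q) := by
  refine ⟨16 * (2 * kap1 + 1) ^ (4 * c1) * (d + 1) ^ 5 *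
    (((4 * c1 + 1) * (64 * r ^ 2 * c1 + 1)) * 2 ^ 16), fun m p q K T hm hq hp hK hT => ?_⟩
  obtain ⟨n, hn⟩ : ∃ n, n = m + q := ⟨_, rfl⟩
  rw [← hn]
  have hn1 : 1 ≤ n := by omega
  have hmn : m + p ≤ 4 * n := by omega
  have hTn : T ≤ 4 * c1 * n := hT.trans (by nlinarith)
  have hK2 : 2 ^ K ≤ m := by rw [hK]; exact Nat.pow_log_le_self 2 (by omega)
  have hKn : 2 ^ K ≤ n := hK2.trans (by omega)
  have hK1 : K + 1 ≤ n := by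
    have : K + 1 ≤ 2 ^ K := Nat.lt_two_pow_self
    omega
  have e1 : 2 ^ p ≤ 16 ^ n := by
    calc 2 ^ p ≤ 2 ^ (4 * n) := Nat.pow_le_pow_right (by norm_num) (by omega)
      _ = 16 ^ n := by rw [pow_mul]; norm_num
  have e2 : (2 * kap1) ^ T ≤ ((2 * kap1 + 1) ^ (4 * c1)) ^ n := by
    calc (2 * kap1) ^ T ≤ (2 * kap1 + 1) ^ T := Nat.pow_le_pow_left (by omega) _
      _ ≤ (2 * kap1 + 1) ^ (4 * c1 * n) := Nat.pow_le_pow_right (by omega) hTn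
      _ = _ := by rw [pow_mul]
  have e3 : d ^ (p + 1) ≤ ((d + 1) ^ 5) ^ n := by
    calc d ^ (p + 1) ≤ (d + 1) ^ (p + 1) := Nat.pow_le_pow_left (by omega) _
      _ ≤ (d + 1) ^ (5 * n) := Nat.pow_le_pow_right (by omega) (by omega)
      _ = _ := by rw [pow_mul]
  have e4 : (T + 1) * ((4 * r * 2 ^ K) ^ 2 * T + 1) ≤
      ((4 * c1 + 1) * (64 * r ^ 2 * c1 + 1)) * n ^ 4 := by
    have h1 : T + 1 ≤ (4 * c1 + 1) * n := by nlinarith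
    have h2 : (4 * r * 2 ^ K) ^ 2 * T + 1 ≤ (64 * r ^ 2 * c1 + 1) * n ^ 3 := by
      have h3 : (4 * r * 2 ^ K) ^ 2 ≤ (4 * r * n) ^ 2 :=
        Nat.pow_le_pow_left (Nat.mul_le_mul_left _ hKn) 2
      have h4 : (4 * r * 2 ^ K) ^ 2 * T ≤ (4 * r * n) ^ 2 * (4 * c1 * n) := Nat.mul_le_mul h3 hTn
      have h5 : (4 * r * n) ^ 2 * (4 * c1 * n) = 64 * r ^ 2 * c1 * n ^ 3 := by ring
      have h6 : 1 ≤ n ^ 3 := Nat.one_le_pow _ _ hn1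
      rw [h5] at h4
      rw [add_mul, one_mul]
      exact Nat.add_le_add h4 h6
    calc _ ≤ ((4 * c1 + 1) * n) * ((64 * r ^ 2 * c1 + 1) * n ^ 3) := Nat.mul_le_mul h1 h2
      _ = _ := by ring
  have e5 : ((T + 1) * ((4 * r * 2 ^ K) ^ 2 * T + 1)) ^ (K + 1) ≤
      (((4 * c1 + 1) * (64 * r ^ 2 * c1 + 1)) * 2 ^ 16) ^ n := by
    have hA : 1 ≤ (4 * c1 + 1) * (64 * r ^ 2 * c1 + 1) := Nat.one_le_iff_ne_zero.2 (by positivity)
    calc _ ≤ (((4 * c1 + 1) * (64 * r ^ 2 * c1 + 1)) * n ^ 4) ^ (K + 1) :=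
          Nat.pow_le_pow_left e4 _
      _ = ((4 * c1 + 1) * (64 * r ^ 2 * c1 + 1)) ^ (K + 1) * (n ^ (K + 1)) ^ 4 := by
          rw [mul_pow, ← pow_mul, ← pow_mul, mul_comm 4 (K + 1)]
      _ ≤ ((4 * c1 + 1) * (64 * r ^ 2 * c1 + 1)) ^ n * (2 ^ (4 * n)) ^ 4 :=
          Nat.mul_le_mul (Nat.pow_le_pow_right hA hK1)
            (Nat.pow_le_pow_left (pow_log_le n K hn1 hKn) 4)
      _ = _ := by
          rw [mul_pow _ (2 ^ 16), ← pow_mul, ← pow_mul]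
          congr 2
          ring
  calc _ ≤ 16 ^ n * ((2 * kap1 + 1) ^ (4 * c1)) ^ n * ((d + 1) ^ 5) ^ n *
        (((4 * c1 + 1) * (64 * r ^ 2 * c1 + 1)) * 2 ^ 16) ^ n :=
        Nat.mul_le_mul (Nat.mul_le_mul (Nat.mul_le_mul e1 e2) e3) e5
    _ = _ := by rw [← mul_pow, ← mul_pow, ← mul_pow]

end Pool.Agent.Hhelper3.AM
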